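import Mathlib
import Pool.Agent.H81.ITTM.Sim
import Pool.Agent.H81.ITTM.GPRF

set_option autoImplicit false

namespace Pool.Agent.Results.MP_477b89_lc.SemiNotRec

open Pool.Agent.H81.ITTM

/-- There is a semi-recognizable real which is not recognizable. -/
theorem result : ∃ x : ℕ → Bool, SemiRecognizable x ∧ ¬ Recognizable x := by
  refine ⟨xG, ?_, not_recognizable⟩
  obtain ⟨n, P, hP⟩ := compile prf_PF
  refine ⟨n, P, (hP xG).2 ((PF_halts_iff xG).2 rfl), fun y hy h => hy ?_⟩
  exact (PF_halts_iff y).1 ((hP y).1 h)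

end Pool.Agent.Results.MP_477b89_lc.SemiNotRec
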